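import Mathlib
import Pool.Agent.W952.SC.Fin
import Pool.Agent.W952.SC.P_cnt
import Pool.Agent.W952.SC.P_fac
import Pool.Agent.W952.SC.P_bad
import Pool.Agent.W952.SC.P_par1
import Pool.Agent.W952.SC.P_par2
import Pool.Agent.W952.SC.P_card
import Pool.Agent.W952.SC.P_emb

/-!
# Circuits of small depth for Set Cover

For every `A` there is `C` such that the following holds for all `m ≥ C`, `r ≥ 1`, `d ≥ 1` with
`C d log (m r) ≤ r`. Let `n = m r`. An instance is a family of subsets of `Fin n` with at most `r`
elements, given by its indicator vector (one bit for each of the `N` possible sets); the question is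
whether some `m` sets of the family cover `Fin n`. Then every circuit of depth `d` (AND and OR gates
of any fan-in, free negations) which decides it has more than `2 ^ (0.44 n) N ^ A` gates. For every
fixed depth this holds for all large `m`, for some `r` of size `O (log m)`, and then
`N = 2 ^ O (log ^ 2 m)`.

Proof: the sets are transversals of `Fin r × Fin m`; a cover is a partition into `m` transversals,
given by `r` permutations of `Fin m`. A random family without cover (of density about
`1 / (16 ρ ^ r)`, `ρ ^ m = m!`) is compared with the families obtained by planting some sets of a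
random partition. As a function of the set `T` of the sets which are planted, the value of the
circuit is `1` exactly when `T` is everything, up to a small probability, so its Moebius
coefficients are nonzero; those of medium size `2 m / 5 ≤ |H| < 4 m / 5` are small for every gate
by the switching lemma, because a random family determines only
`2 ^ (- (1 - β) log (1 / (1 - β)) n)` of a planted set of `β m` transversals (`0.44` is the minimum of
`(1 - β) log (1 / (1 - β))` for `β` in `[2/5, 4/5]`), and a level of the circuit costs a factor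
`poly (n)` for each set, which is nothing against `ρ ^ r`. This is the method of
`Pool.Agent.W951.AC.Core`.
-/

set_option autoImplicit false

namespace Pool.Agent.Results.MP_8fffab_lc.BoundedDepth

open Pool.Agent.H596R2.D3 Pool.Agent.W952.SC

theorem result :
    (∀ A : ℕ, ∃ C : ℕ, ∀ m r d : ℕ, C ≤ m → 1 ≤ r → 1 ≤ d →
      (C : ℝ) * d * Real.log (m * r) ≤ r →
        ∀ K : Circuit (Small r (m * r)) d, (∀ x, K.val x K.out ↔ HasCover m x) →
          (2 : ℝ) ^ (0.44 * ((m : ℝ) * r)) *
            (Fintype.card (Small r (m * r)) : ℝ) ^ A < K.size) ∧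
    (∀ A d : ℕ, 1 ≤ d → ∃ C : ℕ, ∀ m : ℕ, C ≤ m → ∃ r : ℕ, 1 ≤ r ∧
      (r : ℝ) ≤ C * Real.log m ∧
      (Fintype.card (Small r (m * r)) : ℝ) ≤ (2 : ℝ) ^ (C * Real.log m ^ 2) ∧
        ∀ K : Circuit (Small r (m * r)) d, (∀ x, K.val x K.out ↔ HasCover m x) →
          (2 : ℝ) ^ (0.44 * ((m : ℝ) * r)) *
            (Fintype.card (Small r (m * r)) : ℝ) ^ A < K.size) := by
  have h1 := main_of p_cnt p_fac (p_bad p_fac) (p_par1 p_fac) p_par2 p_card p_emb
  refine ⟨h1, fun A d hd => ?_⟩
  obtain ⟨C, hC⟩ := h1 A
  obtain ⟨G, hG⟩ : ∃ G : ℕ, G = 4 * (C + 1) * d := ⟨_, rfl⟩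
  have hG4 : 4 ≤ G := by
    rw [hG]
    have : 1 ≤ (C + 1) * d := Nat.one_le_iff_ne_zero.mpr (by positivity)
    nlinarith
  refine ⟨6 * G + 10, fun m hm => ⟨⌈(G : ℝ) * Real.log m⌉₊, ?_⟩⟩
  obtain ⟨r, hr⟩ : ∃ r : ℕ, r = ⌈(G : ℝ) * Real.log m⌉₊ := ⟨_, rfl⟩
  rw [← hr]
  have hGR : (4 : ℝ) ≤ G := by exact_mod_cast hG4
  have hGe : (G : ℝ) = 4 * (C + 1) * d := by rw [hG]; push_cast; ring
  have hm10 : (10 : ℝ) ≤ m := by
    have : 10 ≤ m := by omega
    exact_mod_cast this
  have hmG : (G : ℝ) ≤ m := by
    have : G ≤ m := by omega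
    exact_mod_cast this
  have hlog : 1 ≤ Real.log m := by
    rw [Real.le_log_iff_exp_le (by positivity)]
    have := Real.exp_one_lt_d9
    linarith
  have hrl : (G : ℝ) * Real.log m ≤ r := by rw [hr]; exact Nat.le_ceil _
  have hru : (r : ℝ) ≤ G * Real.log m + 1 := by
    rw [hr]
    exact (Nat.ceil_lt_add_one (by positivity)).le
  have hr4 : (4 : ℝ) ≤ r := by nlinarith
  have hr1 : 1 ≤ r := by
    have : (1 : ℝ) ≤ r := by linarith
    exact_mod_cast this
  have hr2 : (r : ℝ) ≤ 2 * G * Real.log m := by nlinarith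
  refine ⟨hr1, ?_, ?_, ?_⟩
  · push_cast
    nlinarith
  · have e1 := Aux_card.card_le m r (by omega)
    have hm0 : (0 : ℝ) < 3 * m := by positivity
    have e2 : Real.log (3 * m) ≤ 2 * Real.log m := by
      have e3 : Real.log (3 * m) ≤ Real.log ((m : ℝ) ^ 2) :=
        Real.log_le_log hm0 (by nlinarith)
      rwa [Real.log_pow, Nat.cast_ofNat] at e3
    have e4 : (3 * (m : ℝ)) ^ r = Real.exp (Real.log (3 * m) * r) := by
      rw [← Real.rpow_natCast, Real.rpow_def_of_pos hm0]
    have e5 : (2 : ℝ) ^ (((6 * G + 10 : ℕ) : ℝ) * Real.log m ^ 2) =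
        Real.exp (Real.log 2 * (((6 * G + 10 : ℕ) : ℝ) * Real.log m ^ 2)) := by
      rw [Real.rpow_def_of_pos (by norm_num)]
    rw [e5]
    refine (e1.trans e4.le).trans (Real.exp_le_exp.mpr ?_)
    have e6 := Real.log_two_gt_d9
    calc Real.log (3 * m) * r ≤ (2 * Real.log m) * (2 * G * Real.log m) := by gcongr
      _ = 4 * G * Real.log m ^ 2 := by ring
      _ ≤ 0.69 * (((6 * G + 10 : ℕ) : ℝ) * Real.log m ^ 2) := by
          push_cast
          have : 0 ≤ Real.log m ^ 2 := by positivity
          nlinarith [mul_nonneg (Nat.cast_nonneg G : (0 : ℝ) ≤ G) this]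
      _ ≤ Real.log 2 * (((6 * G + 10 : ℕ) : ℝ) * Real.log m ^ 2) := by
          gcongr
          linarith
  · refine hC m r d ?_ hr1 hd ?_
    · have e1 : C ≤ G := by
        rw [hG]
        have : C * 1 ≤ C * d := Nat.mul_le_mul_left C hd
        nlinarith
      omega
    · have e1 : Real.log m ≤ m := (Real.log_le_sub_one_of_pos (by positivity)).trans (by linarith)
      have e2 : (m : ℝ) * r ≤ (m : ℝ) ^ 4 := by
        have e3 : (r : ℝ) ≤ 2 * m * m := by
          refine hr2.trans ?_
          gcongr
        calc (m : ℝ) * r ≤ m * (2 * m * m) := by gcongr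
          _ ≤ (m : ℝ) ^ 4 := by nlinarith [pow_pos (by linarith : (0 : ℝ) < m) 3]
      have e4 : Real.log (m * r) ≤ 4 * Real.log m := by
        have e5 : Real.log ((m : ℝ) * r) ≤ Real.log ((m : ℝ) ^ 4) :=
          Real.log_le_log (by positivity) e2
        rwa [Real.log_pow, Nat.cast_ofNat] at e5
      calc (C : ℝ) * d * Real.log (m * r) ≤ C * d * (4 * Real.log m) := by gcongr
        _ ≤ G * Real.log m := by
            rw [hGe]
            have : 0 ≤ (d : ℝ) * Real.log m := by positivity
            nlinarith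
        _ ≤ r := hrl

end Pool.Agent.Results.MP_8fffab_lc.BoundedDepth
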