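import Pool.Agent.W952.SF.Asy

/-!
# Set Cover and decomposable circuits

An instance is a family of subsets of `Fin n` with at most `r` elements, `n = m r`, given by its
indicator vector. The circuits have AND gates of fan-in two, OR gates of any fan-in and negations at
the inputs. They are decomposable in the bits of the sets with exactly `r` elements: the formal
degree in each of these bits is at most one, so a proof tree reads it at most once (the bits of the
smaller sets may be read arbitrarily often). This contains decomposable negation normal forms and
nondeterministic read-once branching programs.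

(1) If such circuits accept only families with union `Fin n`, and if each family which contains
`m` sets with union `Fin n` is accepted by at least a `2 ^ (- μ)` fraction of them, then one of them
has at least `2 ^ n / (2 ^ μ (n + 1) 3 ^ m)` gates.
(2) For every `ε > 0` there is `r` such that for every `A` and all large `m` every such circuit
which decides `HasCover m` has more than `2 ^ ((1 - ε) n) N ^ A` gates, where `N` is the number of
the bits: the Set Cover Conjecture holds in this model.

Proof of (1): the input is a random partition of `Fin n` into `m` sets of `r` elements. In a proof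
tree we walk to a gate which sees between one third and two thirds of these sets; let `S` be
their union. By decomposability, if two such inputs have the same gate, a mixture of them is also
accepted, so it is a covering, which makes the sets `S` equal. So there are at most as many sets `S`
as gates, and a given set `S` is rarely a union of `j` of the `m` sets of a random partition:
the probability is at most `choose m j / choose n (j r)`.
-/

set_option autoImplicit false

namespace Pool.Agent.Results.MP_8fffab_lc.DecomposableCircuits

open Pool.Agent.W896.RK Pool.Agent.W952.SF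

theorem result :
    (∀ m r μ : ℕ, 0 < r → 2 ≤ m → ∀ (R : Type) [Fintype R] [Nonempty R]
      (U : R → Circ (Small r (m * r))),
      (∀ ρ x, (U ρ).Val x (U ρ).out →
        ∀ u : Fin (m * r), ∃ B : Small r (m * r), x B = true ∧ u ∈ B.1) →
      (∀ x : Small r (m * r) → Bool, HasCover m x →
        Nat.card R ≤ 2 ^ μ * Nat.card {ρ // (U ρ).Val x (U ρ).out}) →
      (∀ ρ, ∃ d : (U ρ).G → Full r (m * r) → ℕ, IsDeg (U ρ) rs d ∧ ∀ B, d (U ρ).out B ≤ 1) →
        ∃ ρ, 2 ^ (m * r) ≤ 2 ^ μ * (m * r + 1) * 3 ^ m * Fintype.card (U ρ).G) ∧
    (∀ ε : ℝ, 0 < ε → ∃ r : ℕ, 1 ≤ r ∧ ∀ A : ℕ, ∃ C : ℕ, ∀ m : ℕ, C ≤ m →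
      ∀ U : Circ (Small r (m * r)), (∀ x, U.Val x U.out ↔ HasCover m x) →
        (∃ d : U.G → Full r (m * r) → ℕ, IsDeg U rs d ∧ ∀ B, d U.out B ≤ 1) →
          (2 : ℝ) ^ ((1 - ε) * ((m : ℝ) * r)) *
            (Fintype.card (Small r (m * r)) : ℝ) ^ A < Fintype.card U.G) :=
  ⟨fun m r μ hr hm R _ _ U hU hc hd => dec_final m r μ hr hm R U hU hc hd, dec_asy⟩

end Pool.Agent.Results.MP_8fffab_lc.DecomposableCircuits
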