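import Pool.Agent.W952.SF.Pairs

/-!
# Set Cover and the formal degree

An instance is a family of subsets of `Fin n` with at most `r` elements (`n` even, `2 ≤ r`), given
by its indicator vector; the question is whether some `n / 2` sets of the family cover `Fin n`.
The circuits have AND gates of fan-in two, OR gates of any fan-in and negations at the inputs.
If the formal degrees in the bits of the sets with one or two elements sum up to at most `k n ^ 2`
(all the other bits may be read arbitrarily often) then such a circuit with `s` gates has
`n ≤ 2 ^ (60 (k + 1)) (log s + 1)`; this holds also for random circuits with one-sided error and an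
exponentially small probability of acceptance.

This uses the method and the lemmas of `MP_0087d5_lc/FormalDegree` (perfect matchings of graphs).
-/

set_option autoImplicit false

namespace Pool.Agent.Results.MP_8fffab_lc.FormalDegree

open Pool.Agent.W896.RK Pool.Agent.W952.SF

theorem result (k n r : ℕ) (hn : Even n) (hr : 2 ≤ r) (R : Type) [Fintype R] [Nonempty R]
    (U : R → Circ (Small r n))
    (hU : ∀ ρ x, (U ρ).Val x (U ρ).out → HasCover (n / 2) x)
    (hc : ∀ x : Small r n → Bool, HasCover (n / 2) x →
      Nat.card R ≤ 2 ^ (n / 2 ^ (60 * (k + 1))) * Nat.card {ρ // (U ρ).Val x (U ρ).out})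
    (hd : ∀ ρ, ∃ d : (U ρ).G → Sym2 (Fin n) → ℕ, IsDeg (U ρ) (pr hr) d ∧
      ∑ e, d (U ρ).out e ≤ k * n ^ 2) :
    ∃ ρ, n ≤ 2 ^ (60 * (k + 1)) * (Nat.log 2 (Fintype.card (U ρ).G) + 1) :=
  pairs_final k n r hn hr R U hU hc hd

end Pool.Agent.Results.MP_8fffab_lc.FormalDegree
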