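import Pool.Agent.W953.CV.Low

/-!
# The Set Cover Conjecture on few and on many numbers of ones

A Set Cover instance with `M` sets over a universe of `n` elements is a 0-1 matrix with `M` rows and
`n` columns. `Fast` says that for some `ε > 0` and `A` there are circuits with
`2 ^ ((1 - ε) * n) * (M + n + 2) ^ A` gates for all `n`, `M` and `k`; this is the nonuniform
negation of the Set Cover Conjecture. `FastOn t W` says the same for circuits with at most `t` NOT
gates which, for every `a`, have to be right only on the matrices with at least `a` and less than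
`a + W` ones.

Here it is shown that `FastOn t W` and `Fast` are equivalent if `1 ≤ W ≤ K * 2 ^ t` for a constant
`K`, and that `FastOn t W` is false if `W ≥ M ^ (1 / c)` for a constant `c` and `t = o(n)`: the Set
Cover Conjecture holds for such circuits, also for randomised ones.
-/

set_option autoImplicit false

namespace Pool.Agent.Results.MP_8fffab_lc.MatrixWindows

open Filter Pool.Agent.H540R2 Pool.Agent.W953.CV

open Classical in
/-- (1) If `1 ≤ W ≤ K * 2 ^ t` then `FastOn t W` is equivalent to `Fast`. (2) If `M ≤ W ^ c` for a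
constant `c`, and `t = o(n)` uniformly for `M ≤ 2 ^ O(n)`, then `FastOn t W` is false. (3) For all
`ε > 0`, `A`, `c` there are `k`, `γ > 0` and numbers `M₀ n ≤ 4 ^ n` such that for large `n` and all
`M`, `W`, `a` with `M₀ n ≤ W`, `a + M₀ n ≤ M ≤ (M₀ n) ^ c`, every randomised circuit with at most
`γ * n` NOT gates and `2 ^ ((1 - ε) * n) * M ^ A` gates is right with probability less than
`1 / 2 + 2 ^ (- γ * n)` on some matrix with at least `a` and less than `a + W` ones. -/
theorem result :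
    (∀ (K : ℕ) (t W : ℕ → ℕ → ℕ), (∀ n M, 1 ≤ W n M ∧ W n M ≤ K * 2 ^ t n M) →
      (FastOn t W ↔ Fast)) ∧
    (∀ t W : ℕ → ℕ → ℕ, (∃ c : ℕ, ∀ n M, M ≤ W n M ^ c) →
      (∀ b : ℕ, ∀ᶠ n : ℕ in atTop, ∀ M, M ≤ 2 ^ (b * n) → b * t n M ≤ n) → ¬ FastOn t W) ∧
    (∀ (ε : ℝ), 0 < ε → ∀ A c : ℕ, ∃ (k : ℕ) (γ : ℝ) (M₀ : ℕ → ℕ), 0 < γ ∧
      ∀ᶠ n : ℕ in atTop, (n ≤ M₀ n ∧ M₀ n ≤ 4 ^ n) ∧ ∀ M W a : ℕ,
        M₀ n ≤ W → a + M₀ n ≤ M → M ≤ M₀ n ^ c →
        ∀ (Ω : Type) [Fintype Ω] (μ : Ω → ℝ), (∀ r, 0 ≤ μ r) → ∑ r, μ r = 1 →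
          ∀ C : Ω → Circuit (M * n), (∀ r, ((C r).nots : ℝ) ≤ γ * n ∧
            ((C r).size : ℝ) ≤ 2 ^ ((1 - ε) * n) * (M : ℝ) ^ A) →
            ∃ x : Fin (M * n) → Bool, a ≤ ones x ∧ ones x < a + W ∧
              ∑ r ∈ Finset.univ.filter (fun r => ((C r).eval x = true ↔ Cover k x)), μ r <
                1 / 2 + 2 ^ (-(γ * n))) :=
  ⟨fast_iff, not_fastOn, windows⟩

end Pool.Agent.Results.MP_8fffab_lc.MatrixWindows
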